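import Pool.Agent.H43.TC.Targets2
import Pool.Agent.H43.TC.FIN

/-! CR1: first inequality at the corner. -/

set_option autoImplicit false

namespace Pool.Agent.H67.TC

open Pool.Agent.H43.TC Finset

theorem cr1 (hDFN : T_DFN) (hDFS : T_DFS) (hDNS : T_DNS) : T_CR1 := by
  intro k t x y hk ht hxy
  have hrng : 0 ≤ rng k t - 1 := by
    unfold rng
    rw [Finset.sum_range_succ']
    have h1 : 0 ≤ ∑ s ∈ Finset.range t, (avoid k (s + 1) : ℝ) / (2 * k : ℝ) ^ (s + 1) :=
      Finset.sum_nonneg fun s _ => by positivity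
    have h2 : (avoid k 0 : ℝ) / (2 * k : ℝ) ^ 0 = 1 := by simp [avoid]
    linarith
  have hq := inq' k t 1 (rng k t - 1) (rng k t) hk zero_le_one hrng ?_ x y hxy
  · linarith
  intro n c
  have hD := hDNS k (n + 3) t c hk
  obtain ⟨h1, h2, h3, -⟩ := hD
  have hS := hDFS k (n + 3) t c hk ht
  have hpos : 0 ≤ ∑ x, (if c x = true then df c t x else 0) := by
    refine Finset.sum_nonneg fun z _ => ?_
    split_ifs with hz
    · exact hDFN k (n + 3) t c z hk ht hz
    · exact le_rfl
  rw [hS, h2 true, h2 false, h3 true, h3 false] at hpos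
  have hk' : (0 : ℝ) < k := by exact_mod_cast hk
  have hDpos : (0 : ℝ) < ((n + 3 : ℕ) : ℝ) ^ k := by positivity
  have hPpos : (0 : ℝ) < (2 * k : ℝ) ^ t := by positivity
  have hDP : 0 < ((n + 3 : ℕ) : ℝ) ^ k * (2 * k : ℝ) ^ t := mul_pos hDpos hPpos
  have h5 : 0 ≤ (((n + 3 : ℕ) : ℝ) ^ k * (2 * k : ℝ) ^ t) *
      ((rng k t - 1) * (dens c true - mono c true t) - (dens c false - mono c false t)) := by
    refine le_trans hpos (le_of_eq ?_)
    ring
  have h6 := nonneg_of_mul_nonneg_right h5 hDP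
  have h7 : dens c true = 1 - dens c false := by linarith
  rw [h7] at h6
  nlinarith [h6]

end Pool.Agent.H67.TC
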